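import Pool.Agent.helper95.FI.SpecM

/-!
# Row CNU: the number of the residue classes of `ℤ[√8]` modulo `d` with norm coprime to `d`
-/

set_option autoImplicit false

open Finset

namespace Pool.Agent.FI

/-- The number of the pairs modulo `d` whose norm is a unit. -/
noncomputable def CNU_N (d : ℕ) : ℕ :=
  Nat.card {z : ZMod d × ZMod d // IsUnit (z.1 ^ 2 - 8 * z.2 ^ 2)}

theorem CNU_mul {m n : ℕ} (h : Nat.Coprime m n) : CNU_N (m * n) = CNU_N m * CNU_N n := by
  unfold CNU_N
  rw [← Nat.card_prod]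
  refine Nat.card_congr ?_
  have e := ZMod.chineseRemainder h
  let e1 : ZMod (m * n) × ZMod (m * n) ≃ (ZMod m × ZMod m) × (ZMod n × ZMod n) :=
    (Equiv.prodCongr e.toEquiv e.toEquiv).trans (Equiv.prodProdProdComm _ _ _ _)
  refine (e1.subtypeEquiv (p := fun z => IsUnit (z.1 ^ 2 - 8 * z.2 ^ 2))
    (q := fun c => IsUnit (c.1.1 ^ 2 - 8 * c.1.2 ^ 2) ∧ IsUnit (c.2.1 ^ 2 - 8 * c.2.2 ^ 2)) ?_).trans
    (Equiv.subtypeProdEquivProd (p := fun z : ZMod m × ZMod m => IsUnit (z.1 ^ 2 - 8 * z.2 ^ 2))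
      (q := fun z : ZMod n × ZMod n => IsUnit (z.1 ^ 2 - 8 * z.2 ^ 2)))
  intro z
  have h1 : IsUnit (z.1 ^ 2 - 8 * z.2 ^ 2) ↔ IsUnit (e (z.1 ^ 2 - 8 * z.2 ^ 2)) :=
    (isUnit_map_iff e _).symm
  rw [h1, map_sub, map_mul, map_pow, map_pow, Prod.isUnit_iff]
  have h8 : e 8 = ((8 : ZMod m), (8 : ZMod n)) := by
    rw [map_ofNat]
    rfl
  rw [h8]
  rfl

theorem CNU_eq {d : ℕ} (hd : 0 < d) :
    #{z ∈ (range d) ×ˢ (range d) | Nat.Coprime (nn ((z.1 : ℤ), (z.2 : ℤ))) d} = CNU_N d := by
  classical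
  have : NeZero d := ⟨hd.ne'⟩
  unfold CNU_N
  rw [Nat.card_eq_fintype_card, Fintype.card_subtype]
  have key : ∀ a l : ℕ, IsUnit (((a : ZMod d)) ^ 2 - 8 * ((l : ZMod d)) ^ 2) ↔
      Nat.Coprime (nn ((a : ℤ), (l : ℤ))) d := by
    intro a l
    have h1 : ((a : ZMod d)) ^ 2 - 8 * ((l : ZMod d)) ^ 2 = ((N8 ((a : ℤ), (l : ℤ)) : ℤ) : ZMod d) := by
      unfold N8
      push_cast
      rfl
    rw [h1, ZMod.coe_int_isUnit_iff_isCoprime, Int.isCoprime_iff_gcd_eq_one]
    unfold nn
    rw [Nat.coprime_comm]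
    rfl
  refine Finset.card_nbij' (fun z => ((z.1 : ZMod d), (z.2 : ZMod d))) (fun z => (z.1.val, z.2.val))
    ?_ ?_ ?_ ?_
  · intro z hz
    rw [Finset.mem_coe, Finset.mem_filter] at hz
    rw [Finset.mem_coe, Finset.mem_filter]
    exact ⟨Finset.mem_univ _, (key z.1 z.2).2 hz.2⟩
  · intro z hz
    rw [Finset.mem_coe, Finset.mem_filter] at hz
    rw [Finset.mem_coe, Finset.mem_filter, Finset.mem_product, Finset.mem_range, Finset.mem_range]
    refine ⟨⟨ZMod.val_lt _, ZMod.val_lt _⟩, ?_⟩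
    rw [← key, ZMod.natCast_zmod_val, ZMod.natCast_zmod_val]
    exact hz.2
  · intro z hz
    rw [Finset.mem_coe, Finset.mem_filter, Finset.mem_product, Finset.mem_range, Finset.mem_range] at hz
    change (ZMod.val (z.1 : ZMod d), ZMod.val (z.2 : ZMod d)) = z
    rw [ZMod.val_natCast_of_lt hz.1.1, ZMod.val_natCast_of_lt hz.1.2]
  · intro z _
    change ((z.1.val : ZMod d), (z.2.val : ZMod d)) = z
    rw [ZMod.natCast_zmod_val, ZMod.natCast_zmod_val]

theorem CNU_prime {p : ℕ} (hp : p.Prime) (h2 : p ≠ 2) :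
    (CNU_N p : ℝ) = ((p : ℝ) - 1) * (p - ch8 p) := by
  classical
  have : Fact p.Prime := ⟨hp⟩
  have hch : ringChar (ZMod p) ≠ 2 := by
    rw [ZMod.ringChar_zmod_n]
    exact h2
  have h20 : (2 : ZMod p) ≠ 0 := Ring.two_ne_zero hch
  -- the character
  have hchi : quadraticChar (ZMod p) 8 = quadraticChar (ZMod p) 2 := by
    have h3 : (8 : ZMod p) = 2 * 2 ^ 2 := by norm_num
    rw [h3, map_mul, map_pow, quadraticChar_sq_one h20, mul_one]
  have hval : ((quadraticChar (ZMod p) 8 : ℤ) : ℝ) = ch8 p := by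
    rw [hchi, quadraticChar_two hch, ZMod.card, ZMod.χ₈_nat_eq_if_mod_eight]
    have h3 : p % 2 = 1 := by
      rcases hp.eq_two_or_odd with h | h
      · exact absurd h h2
      · exact h
    unfold ch8
    by_cases h4 : p % 8 = 1 ∨ p % 8 = 7
    · rw [if_neg (by omega), if_pos h4, if_pos h4]
      norm_num
    · rw [if_neg (by omega), if_neg h4, if_neg h4, if_pos (by omega)]
      norm_num
  -- the number of zeros
  have hz : ((univ.filter fun z : ZMod p × ZMod p => z.1 ^ 2 - 8 * z.2 ^ 2 = 0).card : ℤ) =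
      p + (p - 1) * quadraticChar (ZMod p) 8 := by
    have e1 : (univ.filter fun z : ZMod p × ZMod p => z.1 ^ 2 - 8 * z.2 ^ 2 = 0).card =
        ∑ l : ZMod p, (univ.filter fun a : ZMod p => a ^ 2 = 8 * l ^ 2).card := by
      rw [Finset.card_eq_sum_card_fiberwise (f := fun z : ZMod p × ZMod p => z.2) (t := univ)
        (fun z _ => Finset.mem_univ _)]
      refine Finset.sum_congr rfl fun l _ => ?_
      refine Finset.card_nbij' (fun z => z.1) (fun a => (a, l)) ?_ ?_ ?_ ?_
      · intro z hz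
        simp only [Finset.coe_filter, Finset.mem_univ, true_and, Finset.mem_filter, Set.mem_ofPred_eq,
          sub_eq_zero] at hz ⊢
        rw [hz.1, hz.2]
      · intro a ha
        simp only [Finset.coe_filter, Finset.mem_univ, true_and, Finset.mem_filter, Set.mem_ofPred_eq,
          sub_eq_zero] at ha ⊢
        exact ⟨ha, trivial⟩
      · intro z hz
        simp only [Finset.coe_filter, Finset.mem_univ, true_and, Finset.mem_filter, Set.mem_ofPred_eq,
          sub_eq_zero] at hz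
        change (z.1, l) = z
        rw [← hz.2]
      · intro a _
        rfl
    rw [e1]
    push_cast
    have e2 : ∀ l : ZMod p, ((univ.filter fun a : ZMod p => a ^ 2 = 8 * l ^ 2).card : ℤ) =
        quadraticChar (ZMod p) (8 * l ^ 2) + 1 := by
      intro l
      rw [← quadraticChar_card_sqrts hch]
      congr 2
      ext a
      simp
    rw [Finset.sum_congr rfl fun l _ => e2 l, Finset.sum_add_distrib]
    have e3 : ∑ l : ZMod p, quadraticChar (ZMod p) (8 * l ^ 2) = (p - 1) * quadraticChar (ZMod p) 8 := by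
      have e4 : ∀ l : ZMod p, quadraticChar (ZMod p) (8 * l ^ 2) =
          quadraticChar (ZMod p) 8 * (if l = 0 then 0 else 1) := by
        intro l
        rw [map_mul, map_pow]
        split_ifs with h
        · rw [h]; simp
        · rw [quadraticChar_sq_one h]
      rw [Finset.sum_congr rfl fun l _ => e4 l, ← Finset.mul_sum, mul_comm]
      congr 1
      have e5 : ∀ l : ZMod p, (if l = 0 then (0 : ℤ) else 1) = 1 - (if l = 0 then 1 else 0) := by
        intro l
        split_ifs <;> rfl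
      rw [Finset.sum_congr rfl fun l _ => e5 l, Finset.sum_sub_distrib, Finset.sum_ite_eq' univ (0 : ZMod p)]
      simp [ZMod.card]
    rw [e3]
    simp [ZMod.card]
    ring
  -- the complement
  have htot : CNU_N p + (univ.filter fun z : ZMod p × ZMod p => z.1 ^ 2 - 8 * z.2 ^ 2 = 0).card = p * p := by
    unfold CNU_N
    rw [Nat.card_eq_fintype_card, Fintype.card_subtype]
    have e1 : (univ.filter fun z : ZMod p × ZMod p => IsUnit (z.1 ^ 2 - 8 * z.2 ^ 2)) =
        univ.filter fun z : ZMod p × ZMod p => ¬ (z.1 ^ 2 - 8 * z.2 ^ 2 = 0) := by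
      ext z
      simp only [Finset.mem_filter, Finset.mem_univ, true_and, isUnit_iff_ne_zero, ne_eq]
    rw [e1, add_comm, Finset.card_filter_add_card_filter_not, Finset.card_univ, Fintype.card_prod,
      ZMod.card]
  have hzR : ((univ.filter fun z : ZMod p × ZMod p => z.1 ^ 2 - 8 * z.2 ^ 2 = 0).card : ℝ) =
      p + (p - 1) * ch8 p := by
    rw [← hval]
    exact_mod_cast hz
  have htotR : (CNU_N p : ℝ) +
      ((univ.filter fun z : ZMod p × ZMod p => z.1 ^ 2 - 8 * z.2 ^ 2 = 0).card : ℝ) = p * p := by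
    exact_mod_cast htot
  rw [hzR] at htotR
  linarith

theorem CNU_main (d : ℕ) : Odd d → Squarefree d →
    (CNU_N d : ℝ) = ∏ p ∈ d.primeFactors, ((p : ℝ) - 1) * (p - ch8 p) := by
  induction d using Nat.recOnPosPrimePosCoprime with
  | prime_pow p n hp hn =>
    intro hodd hsq
    have h1 : n = 1 := by
      rcases (Nat.squarefree_pow_iff hp.ne_one hn.ne').1 hsq with ⟨-, h⟩
      exact h
    subst h1
    rw [pow_one] at hodd ⊢
    rw [hp.primeFactors, Finset.prod_singleton]
    refine CNU_prime hp ?_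
    rintro rfl
    exact absurd hodd (by decide)
  | zero =>
    intro hodd
    exact absurd hodd (by decide)
  | one =>
    intro _ _
    have h1 : CNU_N 1 = 1 := by
      unfold CNU_N
      have h2 : ∀ z : ZMod 1 × ZMod 1, IsUnit (z.1 ^ 2 - 8 * z.2 ^ 2) := by
        intro z
        have h3 : z.1 ^ 2 - 8 * z.2 ^ 2 = (1 : ZMod 1) := Subsingleton.elim _ _
        rw [h3]
        exact isUnit_one
      have : Unique {z : ZMod 1 × ZMod 1 // IsUnit (z.1 ^ 2 - 8 * z.2 ^ 2)} :=
        { default := ⟨0, h2 0⟩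
          uniq := fun z => Subsingleton.elim _ _ }
      exact Nat.card_unique
    rw [h1]
    simp
  | coprime m n hm hn hmn ihm ihn =>
    intro hodd hsq
    have h1 := Nat.odd_mul.1 hodd
    have h2 := (Nat.squarefree_mul hmn).1 hsq
    rw [CNU_mul hmn, hmn.primeFactors_mul, Finset.prod_union hmn.disjoint_primeFactors]
    push_cast
    rw [ihm h1.1 h2.1, ihn h1.2 h2.2]

theorem CNU : CNU_stmt := by
  intro d hodd hsq
  rw [CNU_eq hodd.pos]
  exact CNU_main d hodd hsq

end Pool.Agent.FI
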