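import Pool.Agent.helper40.FI.SpecLA

/-!
# Project fi (MP_baa4d7_al), block LA, row LPC: one character `χ`
-/

set_option autoImplicit false

open Finset

namespace Pool.Agent.FI

open Pool.Agent.GR

theorem LPC (hLQ0 : LQ0_stmt) (hLFI : LFI_stmt) (hLFR : LFR_stmt) : LPC_stmt := by
  classical
  intro p D _ _ _ X _ Z I g l₀ A hG hF hA χ hχ
  have hcard : (Nat.card D : ℂ) ≠ 0 := by exact_mod_cast Nat.card_pos.ne'
  have hA0 : A χ l₀ = 0 := by
    have h := hA χ l₀ self_mem_ov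
    simp only [sub_self, mul_zero, Finset.sum_const_zero] at h
    have h1 := (mul_eq_zero.1 h.symm).resolve_left hcard
    exact_mod_cast h1
  obtain ⟨l₁, hl₁, hne₁⟩ : ∃ l₁ ∈ ov Z l₀, A χ l₁ ≠ 0 := by
    by_contra hcon
    push Not at hcon
    obtain ⟨u, hu, hgu⟩ := hG.gn χ
    apply hgu
    rw [hLFI D X Z g l₀ A hA χ hχ u hu]
    exact Finset.sum_eq_zero fun l hl => by rw [hcon l hl]; simp
  have hl10 : l₁ ≠ l₀ := fun h => hne₁ (h ▸ hA0)
  have htw0 : ∀ t ∈ I, tw t l₀ = l₀ := fun t ht => lv_inj fun u => by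
    rw [lv_tw]
    exact hF t ht u
  have htwov : ∀ t ∈ I, ∀ l ∈ ov Z l₀, tw t l ∈ ov Z l₀ := by
    intro t ht l hl
    rw [mem_ov] at hl ⊢
    intro z hz
    rw [lv_tw, hG.fz t ht z hz, hl z hz]
  have hAt : ∀ t ∈ I, ∀ l ∈ ov Z l₀, A χ (tw t l) = A χ l := by
    intro t ht l hl
    have h1 := hA χ _ (htwov t ht l hl)
    have h2 := hA χ l hl
    have h3 : ∑ u, g χ u * (lv (tw t l) u⁻¹ - lv l₀ u⁻¹) = ∑ u, g χ u * (lv l u⁻¹ - lv l₀ u⁻¹) := by
      rw [← Equiv.sum_comp t.toEquiv (fun u => g χ u * (lv l u⁻¹ - lv l₀ u⁻¹))]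
      refine Finset.sum_congr rfl fun u _ => ?_
      show g χ u * (lv l (t u⁻¹) - lv l₀ u⁻¹) = g χ (t u) * (lv l (t u)⁻¹ - lv l₀ (t u)⁻¹)
      rw [hG.gt χ t ht u, ← map_inv, hF t ht]
    rw [h3, h2] at h1
    have h4 := mul_left_cancel₀ hcard h1
    exact_mod_cast h4.symm
  set s := (ov Z l₀).erase l₀ with hs
  have hscard : s.card = Z.index - 1 := by rw [hs, Finset.card_erase_of_mem self_mem_ov, card_ov]
  have hidx : 1 ≤ Z.index := Nat.one_le_iff_ne_zero.2 Subgroup.index_ne_zero_of_finite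
  have hscard' : (s.card : ℤ) = (Z.index : ℤ) - 1 := by
    rw [hscard]
    omega
  have : Fintype I := Fintype.ofFinite _
  set O : Finset (D →* ℂˣ) := Finset.univ.image (fun t : I => tw (t : MulAut D) l₁) with hO
  have hinj : Function.Injective (fun t : I => tw (t : MulAut D) l₁) := by
    intro t t' h
    have h1 : tw ((t : MulAut D) * (t' : MulAut D)⁻¹) l₁ = l₁ := by
      rw [tw_mul]
      have h0 : tw (t : MulAut D) l₁ = tw (t' : MulAut D) l₁ := h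
      rw [h0, ← tw_mul, mul_inv_cancel, tw_one]
    have h2 := hLFR p D X Z I g l₀ l₁ _ hG hF hl₁ hl10 (I.mul_mem t.2 (I.inv_mem t'.2)) h1
    exact Subtype.ext (mul_inv_eq_one.1 h2)
  have hOcard : O.card = Nat.card I := by
    rw [hO, Finset.card_image_of_injective _ hinj, Finset.card_univ, Nat.card_eq_fintype_card]
  have hOs : O ⊆ s := by
    intro l hl
    rw [hO, Finset.mem_image] at hl
    obtain ⟨t, -, rfl⟩ := hl
    rw [hs, Finset.mem_erase]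
    refine ⟨fun h => hl10 ?_, htwov t t.2 l₁ hl₁⟩
    exact tw_injective (t : MulAut D) (h.trans (htw0 t t.2).symm)
  have hOne : O.Nonempty := ⟨tw ((1 : I) : MulAut D) l₁, Finset.mem_image.2 ⟨1, Finset.mem_univ _, rfl⟩⟩
  have hOe : ∀ l ∈ O, A χ l = A χ l₁ := by
    intro l hl
    rw [hO, Finset.mem_image] at hl
    obtain ⟨t, -, rfl⟩ := hl
    exact hAt t t.2 l₁ hl₁
  obtain ⟨hq1, hq2⟩ := hLQ0 (D →* ℂˣ) s O (A χ) (A χ l₁) hOs hOne hne₁ hOe
  have hs1 : ∑ l ∈ s, A χ l = ∑ l ∈ ov Z l₀, A χ l := Finset.sum_erase _ hA0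
  have hs2 : ∑ l ∈ s, A χ l ^ 2 = ∑ l ∈ ov Z l₀, A χ l ^ 2 :=
    Finset.sum_erase _ (by rw [hA0]; norm_num)
  rw [hs1, hs2, hscard', hOcard] at hq1 hq2
  refine ⟨hq1, fun h => ?_⟩
  obtain ⟨he, h3⟩ := hq2 h
  refine ⟨A χ l₁, he, ?_⟩
  rcases h3 with h3 | h3
  · left
    intro l hl hne
    exact h3 l (Finset.mem_erase.2 ⟨hne, hl⟩)
  · right
    refine ⟨l₁, hl₁, hl10, fun t ht => hAt t ht l₁ hl₁, fun l hl hne => ?_⟩
    by_cases h0 : l = l₀
    · rw [h0]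
      exact hA0
    · refine h3 l (Finset.mem_erase.2 ⟨h0, hl⟩) fun hlO => ?_
      rw [hO, Finset.mem_image] at hlO
      obtain ⟨t, -, rfl⟩ := hlO
      exact hne t t.2 rfl

end Pool.Agent.FI
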